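import Pool.Agent.Helper75.ChQ.Explicit

/-!
# All thresholds hold for `n ≥ exp (exp (A K^3))`
-/

set_option autoImplicit false

namespace Pool.Agent.Helper75.ChQ

/-- pocket size -/
def Cc (K : ℕ) : ℕ := 576 * (6 * K) ^ 2 + 1

/-- degree bound -/
def Dd (K : ℕ) : ℕ := 3 * Cc K + 6 * K + 3

/-- size of the regions -/
def c3 (K : ℕ) : ℕ := 6 + (4 * (Dd K + 1) ^ Cc K + 4 * (Dd K + 1) ^ Cc K * Dd K)

/-- size of the sunflower -/
def pp (K : ℕ) : ℕ := K + 2 * 2 ^ c3 K + 1 + c3 K + (Dd K + 1) ^ (Cc K + 1) + 2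

/-- number of candidates -/
def Nn (K : ℕ) : ℕ := sunN (pp K) (c3 K)

/-- order of the complete minor -/
def qq (K : ℕ) : ℕ := (4 * K) * (4 * K) + 2 * (4 * K) + 1 + 2 * K + 4 * K + Cc K + 1

/-- all numerical conditions -/
structure Big (K n : ℕ) : Prop where
  b1 : (400 * (6 * K + 1)) ^ 4 ≤ n
  b2 : 5 * (6 * K) + 5 ≤ n
  b3 : (400 * (15 + 1)) ^ 4 ≤ n
  b4 : 2 * (3 * Cc K + 3 * Cc K * Dd K) + 1 ≤ n
  b5 : 2 * (((3 + 6 * Dd K) * (Dd K + 1) ^ Cc K : ℕ) : ℝ) ≤ Real.log n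
  b6 : (2 * ((6 * Nn K + 5 * (6 * Nn K * (6 * Nn K)) : ℕ) : ℝ) + 1 : ℝ) < n
  b7 : 66304 * ((qq K : ℝ) + 1) ^ 2 * (1 + Real.log n) ^ 5 < n

theorem Cc_le {K : ℕ} (hK : 1 ≤ K) : Cc K ≤ 20737 * K ^ 2 := by
  unfold Cc
  have h : 1 ≤ K ^ 2 := Nat.one_le_pow _ _ hK
  nlinarith

theorem Dd_le {K : ℕ} (hK : 1 ≤ K) : Dd K + 1 ≤ 62221 * K ^ 2 := by
  unfold Dd
  have h := Cc_le hK
  have h1 : 1 ≤ K ^ 2 := Nat.one_le_pow _ _ hK
  have h2 : K ≤ K ^ 2 := Nat.le_self_pow (by norm_num) K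
  omega

theorem E_sqK (a : ℕ) : E fun K => ((a * K ^ 2 : ℕ) : ℝ) := by
  refine ((E.const (a : ℝ)).mul (E.id.sq fun K _ => by positivity) fun K _ => by positivity).mono
    fun K _ => le_of_eq ?_
  push_cast
  ring

theorem E_D : E fun K => ((Dd K + 1 : ℕ) : ℝ) :=
  (E_sqK 62221).mono fun K hK => by exact_mod_cast Dd_le hK

theorem E_pow : E fun K => (((Dd K + 1) ^ Cc K : ℕ) : ℝ) := by
  refine (E.pow (D := fun K => Dd K + 1) (C := Cc) 62221 20737 (fun K hK => Dd_le hK) (fun K hK => Cc_le hK)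
    (fun K _ => by show 1 ≤ Dd K + 1; omega)).mono fun K _ => ?_
  push_cast
  exact le_refl _

theorem E_c3 : E fun K => ((c3 K : ℕ) : ℝ) := by
  refine ((E.const 6).add (((E.const 4).mul E_pow fun K _ => by positivity).mul E_D
    fun K _ => by positivity)).mono fun K _ => ?_
  unfold c3
  push_cast
  nlinarith

theorem E_pow1 : E fun K => (((Dd K + 1) ^ (Cc K + 1) : ℕ) : ℝ) := by
  refine (E_pow.mul E_D fun K _ => by positivity).mono fun K _ => ?_
  push_cast
  rw [pow_succ]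

theorem DD_p : DD fun K => ((pp K : ℕ) : ℝ) := by
  have h2 : DD fun K => (2 : ℝ) ^ c3 K :=
    DD.pow (f := fun _ => (2 : ℝ)) (DD.of_E (E.const 2)) (fun _ _ => by norm_num) E_c3
  have h3 := (DD.of_E (E.id.add (E.const 3))).add ((DD.of_E (E.const 2)).mul h2 fun K _ => by positivity)
  have h4 := h3.add (DD.of_E (E_c3.add E_pow1))
  refine h4.mono fun K _ => ?_
  unfold pp
  push_cast
  linarith

theorem DD_N : DD fun K => ((Nn K : ℕ) : ℝ) := by
  have h1 : DD fun K => ((pp K : ℕ) : ℝ) * ((c3 K : ℝ) + 3) :=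
    DD_p.mul (DD.of_E (E_c3.add (E.const 3))) fun K _ => by positivity
  have h2 : E fun K => (((c3 K + 1 : ℕ)) : ℝ) :=
    (E_c3.add (E.const 1)).mono fun K _ => by push_cast; exact le_refl _
  refine (DD.pow (h := fun K => c3 K + 1) h1 (fun K _ => by positivity) h2).mono fun K _ => ?_
  have h3 := sunN_le (pp K) (by unfold pp; omega) (c3 K)
  unfold Nn
  exact_mod_cast h3

theorem DD_const (c : ℝ) : DD fun _ => c := DD.of_E (E.const c)

theorem big_of_large : ∃ A : ℝ, 0 ≤ A ∧ ∀ K : ℕ, 1 ≤ K → ∀ n : ℕ,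
    Real.exp (Real.exp (A * (K : ℝ) ^ 3)) ≤ n → Big K n := by
  -- the seven thresholds
  have e1 : E fun K => (400 * (6 * (K : ℝ) + 1)) ^ 4 := by
    have h0 : E fun K => 400 * (6 * (K : ℝ) + 1) :=
      (E.const 400).mul (((E.const 6).mul E.id fun K _ => by positivity).add (E.const 1))
        fun K _ => by positivity
    refine ((h0.sq fun K _ => by positivity).sq fun K _ => by positivity).mono fun K _ => le_of_eq ?_
    ring
  have e2 : E fun K => 5 * (6 * (K : ℝ)) + 5 := by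
    refine ((E.const 30).mul E.id fun K _ => by positivity).add (E.const 5) |>.mono fun K _ => le_of_eq ?_
    ring
  have e4 : E fun K => ((2 * (3 * Cc K + 3 * Cc K * Dd K) + 1 : ℕ) : ℝ) := by
    have hC : E fun K => ((Cc K : ℕ) : ℝ) := (E_sqK 20737).mono fun K hK => by exact_mod_cast Cc_le hK
    refine (((E.const 6).mul (hC.mul E_D fun K _ => by positivity) fun K _ => by positivity).add
      (E.const 1)).mono fun K _ => le_of_eq ?_
    push_cast
    ring
  have e5 : E fun K => 2 * (((3 + 6 * Dd K) * (Dd K + 1) ^ Cc K : ℕ) : ℝ) := by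
    refine ((E.const 12).mul (E_D.mul E_pow fun K _ => by positivity) fun K _ => by positivity).mono
      fun K _ => ?_
    push_cast
    have : (0 : ℝ) ≤ ((Dd K : ℝ) + 1) ^ Cc K := by positivity
    nlinarith
  have e6 : DD fun K => (2 * ((6 * Nn K + 5 * (6 * Nn K * (6 * Nn K)) : ℕ) : ℝ) + 2 : ℝ) := by
    have h1 : DD fun K => 12 * ((Nn K : ℕ) : ℝ) := (DD_const 12).mul DD_N fun K _ => by positivity
    have h2 : DD fun K => 360 * (((Nn K : ℕ) : ℝ) * ((Nn K : ℕ) : ℝ)) :=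
      (DD_const 360).mul (DD_N.mul DD_N fun K _ => by positivity) fun K _ => by positivity
    refine ((h1.add h2).add (DD_const 2)).mono fun K _ => le_of_eq ?_
    push_cast
    ring
  have e7 : E fun K => 200000 * (66304 * ((qq K : ℝ) + 1) ^ 2) := by
    have hq : E fun K => ((qq K : ℕ) : ℝ) + 1 := by
      refine (E_sqK 20770).mono fun K hK => ?_
      have h : qq K + 1 ≤ 20770 * K ^ 2 := by
        unfold qq
        have h1 := Cc_le hK
        have h2 : 1 ≤ K ^ 2 := Nat.one_le_pow _ _ hK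
        have h3 : K ≤ K ^ 2 := Nat.le_self_pow (by norm_num) K
        have h4 : (4 * K) * (4 * K) = 16 * K ^ 2 := by ring
        rw [h4]
        omega
      exact_mod_cast h
    refine (E.const 200000).mul ((E.const 66304).mul (hq.sq fun K _ => by positivity) fun K _ => by positivity)
      fun K _ => by positivity
  obtain ⟨A1, _, a1⟩ := (DD.of_E e1).ge
  obtain ⟨A2, _, a2⟩ := (DD.of_E e2).ge
  obtain ⟨A3, _, a3⟩ := (DD_const ((400 * (15 + 1)) ^ 4)).ge
  obtain ⟨A4, _, a4⟩ := (DD.of_E e4).ge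
  obtain ⟨A5, _, a5⟩ := e5.log_ge
  obtain ⟨A6, _, a6⟩ := e6.ge
  obtain ⟨A7, _, a7⟩ := e7.log_ge
  refine ⟨A1 + A2 + A3 + A4 + A5 + A6 + A7, by linarith, fun K hK n hn => ?_⟩
  have hle : ∀ B : ℝ, B ≤ A1 + A2 + A3 + A4 + A5 + A6 + A7 → Real.exp (Real.exp (B * (K : ℝ) ^ 3)) ≤ n :=
    fun B hB => (expexp_mono hB).trans hn
  have r1 := a1 K hK n (hle _ (by linarith))
  have r2 := a2 K hK n (hle _ (by linarith))
  have r3 := a3 K hK n (hle _ (by linarith))
  have r4 := a4 K hK n (hle _ (by linarith))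
  have r5 := a5 K hK n (hle _ (by linarith))
  have r6 := a6 K hK n (hle _ (by linarith))
  have r7 := a7 K hK n (hle _ (by linarith))
  refine ⟨by exact_mod_cast r1, by exact_mod_cast r2, by exact_mod_cast r3, by exact_mod_cast r4, r5,
    by linarith, ?_⟩
  have hn0 : (0 : ℝ) < n := lt_of_lt_of_le (Real.exp_pos _) hn
  set x : ℝ := Real.log n with hx
  have hxn : Real.exp x = n := Real.exp_log hn0
  set c : ℝ := 66304 * ((qq K : ℝ) + 1) ^ 2 with hc
  have hc0 : 0 < c := by positivity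
  have hx0 : 0 ≤ x := le_trans (by positivity) r7
  have h1 : 1 + x ≤ 10 * Real.exp (x / 10) := by
    have := Real.add_one_le_exp (x / 10)
    linarith
  have h2 : (1 + x) ^ 5 ≤ 100000 * Real.exp (x / 2) := by
    calc (1 + x) ^ 5 ≤ (10 * Real.exp (x / 10)) ^ 5 := pow_le_pow_left₀ (by linarith) h1 5
      _ = 100000 * Real.exp (x / 2) := by
          have h5 : Real.exp (x / 10) ^ 5 = Real.exp (x / 2) := by
            rw [← Real.exp_nat_mul]
            congr 1
            push_cast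
            ring
          rw [mul_pow, h5]
          norm_num
  have h3 : 100000 * c < Real.exp (x / 2) := by
    have := Real.add_one_le_exp (x / 2)
    linarith
  have h4 : Real.exp (x / 2) * Real.exp (x / 2) = n := by
    rw [← Real.exp_add, ← hxn]
    congr 1
    ring
  calc c * (1 + x) ^ 5 ≤ c * (100000 * Real.exp (x / 2)) := mul_le_mul_of_nonneg_left h2 hc0.le
    _ = 100000 * c * Real.exp (x / 2) := by ring
    _ < Real.exp (x / 2) * Real.exp (x / 2) := mul_lt_mul_of_pos_right h3 (Real.exp_pos _)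
    _ = n := h4

end Pool.Agent.Helper75.ChQ
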