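import Pool.Agent.Helper75.ChQ.Big
import Pool.Agent.Helper75.Ch.MainK

/-!
# Disjoint chords with an explicit rate, in potential-minimal graphs
-/

set_option autoImplicit false
set_option linter.unusedSectionVars false
set_option linter.unusedSimpArgs false

namespace Pool.Agent.Helper75.ChQ

open Finset Classical Pool.Agent.Helper75.Ch

/-- `M` is a set of pairwise vertex-disjoint chords of the closed walk `c` -/
def DisjChords {V : Type*} {G : SimpleGraph V} {v : V} (c : G.Walk v v) (M : Finset (Sym2 V)) : Prop :=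
  (∀ e ∈ M, e ∈ G.edgeSet ∧ (∀ x ∈ e, x ∈ c.support) ∧ e ∉ c.edges) ∧
    ∀ e ∈ M, ∀ e' ∈ M, ∀ x, x ∈ e → x ∈ e' → e = e'

variable {V : Type} [Fintype V]

/-- Choice of the gadgets. -/
theorem gadgets75 (K : ℕ) (G : SimpleGraph V) (hG : PM G) (hB : Big K (Fintype.card V))
    (hg : NoShort G (2 * (576 * 15 ^ 2 + 1) + 30)) :
    ∃ P : Fin K → Fin 6 → V, Function.Injective (fun x : Fin K × Fin 6 => P x.1 x.2) ∧
      (∀ i, G.Adj (P i 0) (P i 1) ∧ G.Adj (P i 0) (P i 2) ∧ G.Adj (P i 0) (P i 3) ∧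
        G.Adj (P i 1) (P i 4) ∧ G.Adj (P i 1) (P i 5)) ∧
      ∀ W : Finset V, (∀ i, P i 0 ∉ W ∧ P i 1 ∉ W) → W.card ≤ Cc K →
        4 * K ≤ ((Finset.univ.filter fun x => x ∉ W ∧ (∀ i, x ≠ P i 0 ∧ x ≠ P i 1) ∧
          ((∃ w ∈ W, G.Adj w x) ∨ ∃ i, x = P i 2 ∨ x = P i 3 ∨ x = P i 4 ∨ x = P i 5))).card := by
  refine select_gadgets (D := Dd K) (N := Nn K) hg rfl
    (fun W Z h1 h2 h3 => triple75 _ G hG hB.b3 hB.b4 W Z h1 h2 h3)
    (fun s R hR hs => sunflower75 (c3 K) (pp K) s R hR hs) ?_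
  obtain ⟨hpos, hlt⟩ := small75 ((3 + 6 * Dd K) * (Dd K + 1) ^ Cc K)
    (6 * Nn K + 5 * (6 * Nn K * (6 * Nn K))) (Fintype.card V) hB.b5 hB.b6
  have h1 : ((NF G (Dd K) (Cc K)).card : ℝ) ≤ tau (Fintype.card V) * Fintype.card V * (Dd K + 1) ^ Cc K := by
    have h2 : ((NF G (Dd K) (Cc K)).card : ℝ) ≤ (Df G).card * (Dd K + 1) ^ Cc K := by
      exact_mod_cast card_NF (G := G) (Dd K) (Cc K)
    have h3 : ((Df G).card : ℝ) ≤ tau (Fintype.card V) * Fintype.card V :=
      Pool.Agent.Helper92.Ch.pm_deficient G hG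
    exact h2.trans (mul_le_mul_of_nonneg_right h3 (by positivity))
  have h4 : ((6 * Nn K + 5 * (6 * Nn K * (6 * Nn K)) + (3 + 6 * Dd K) * (NF G (Dd K) (Cc K)).card : ℕ) : ℝ) <
      (Fintype.card V : ℝ) := by
    push_cast at hlt ⊢
    have h5 : ((3 : ℝ) + 6 * Dd K) * (NF G (Dd K) (Cc K)).card ≤
        (3 + 6 * Dd K) * (tau (Fintype.card V) * Fintype.card V * (Dd K + 1) ^ Cc K) :=
      mul_le_mul_of_nonneg_left h1 (by positivity)
    nlinarith [h5, hlt]
  exact_mod_cast h4

/-- assembling the cycle -/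
theorem assembly75 {G : SimpleGraph V} {K : ℕ} (hK : 0 < K) (P : Fin K → Fin 6 → V)
    (hinj : Function.Injective (fun x : Fin K × Fin 6 => P x.1 x.2))
    (hadj : ∀ i, G.Adj (P i 0) (P i 1) ∧ G.Adj (P i 0) (P i 2) ∧ G.Adj (P i 0) (P i 3) ∧
        G.Adj (P i 1) (P i 4) ∧ G.Adj (P i 1) (P i 5))
    (S : Finset V) (hS : ∀ i, P i 2 ∈ S ∧ P i 3 ∈ S ∧ P i 4 ∈ S ∧ P i 5 ∈ S)
    (T : V → Finset V) (hT : ∀ s ∈ S, s ∈ T s ∧ Conn G (T s))
    (hTT : ∀ s ∈ S, ∀ s' ∈ S, s ≠ s' → Disjoint (T s) (T s') ∧ Touch G (T s) (T s'))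
    (hTR : ∀ s ∈ S, ∀ i, P i 0 ∉ T s ∧ P i 1 ∉ T s) :
    ∃ (v : V) (c : G.Walk v v), c.IsCycle ∧ ∃ M : Finset (Sym2 V), M.card = K ∧ DisjChords c M := by
  let P' : ℕ → Fin 6 → V := fun n => P ⟨n % K, Nat.mod_lt _ hK⟩
  have hP'inj : ∀ i j a b, P' i a = P' j b → i % K = j % K ∧ a = b := by
    intro i j a b h
    have := hinj (a₁ := (⟨i % K, Nat.mod_lt _ hK⟩, a)) (a₂ := (⟨j % K, Nat.mod_lt _ hK⟩, b)) h
    simp only [Prod.mk.injEq, Fin.mk.injEq] at this
    exact this
  have hS' : ∀ i, P' i 2 ∈ S ∧ P' i 3 ∈ S ∧ P' i 4 ∈ S ∧ P' i 5 ∈ S := fun i => hS _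
  have hadj' : ∀ i, G.Adj (P' i 0) (P' i 1) ∧ G.Adj (P' i 0) (P' i 2) ∧
    G.Adj (P' i 0) (P' i 3) ∧ G.Adj (P' i 1) (P' i 4) ∧ G.Adj (P' i 1) (P' i 5) := fun i => hadj _
  let w : ℕ → V := fun i => if i % 2 = 0 then P' (i / 2) 0 else P' (i / 2) 1
  let out : ℕ → V := fun i => if i % 2 = 0 then P' (i / 2) 3 else P' (i / 2) 5
  let inn : ℕ → V := fun i => if i % 2 = 0 then P' (i / 2) 4 else P' (i / 2 + 1) 2
  let B : ℕ → Finset V := fun i => T (out i) ∪ T (inn i)
  have houtS : ∀ i, out i ∈ S := by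
    intro i
    by_cases h : i % 2 = 0
    · simp only [out, h, if_true]; exact (hS' _).2.1
    · simp only [out, h, if_false]; exact (hS' _).2.2.2
  have hinnS : ∀ i, inn i ∈ S := by
    intro i
    by_cases h : i % 2 = 0
    · simp only [inn, h, if_true]; exact (hS' _).2.2.1
    · simp only [inn, h, if_false]; exact (hS' _).1
  have hoo : ∀ i < 2 * K, ∀ j < 2 * K, out i = out j → i = j := by
    intro i hi j hj h
    by_cases h1 : i % 2 = 0 <;> by_cases h2 : j % 2 = 0 <;>
      simp only [out, h1, h2, if_true, if_false] at h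
    · have := (hP'inj _ _ _ _ h).1
      rw [Nat.mod_eq_of_lt (by omega), Nat.mod_eq_of_lt (by omega)] at this
      omega
    · exact absurd (hP'inj _ _ _ _ h).2 (by decide)
    · exact absurd (hP'inj _ _ _ _ h).2 (by decide)
    · have := (hP'inj _ _ _ _ h).1
      rw [Nat.mod_eq_of_lt (by omega), Nat.mod_eq_of_lt (by omega)] at this
      omega
  have hii : ∀ i < 2 * K, ∀ j < 2 * K, inn i = inn j → i = j := by
    intro i hi j hj h
    by_cases h1 : i % 2 = 0 <;> by_cases h2 : j % 2 = 0 <;>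
      simp only [inn, h1, h2, if_true, if_false] at h
    · have := (hP'inj _ _ _ _ h).1
      rw [Nat.mod_eq_of_lt (by omega), Nat.mod_eq_of_lt (by omega)] at this
      omega
    · exact absurd (hP'inj _ _ _ _ h).2 (by decide)
    · exact absurd (hP'inj _ _ _ _ h).2 (by decide)
    · have := (hP'inj _ _ _ _ h).1
      have e1 : (i / 2 + 1) % K = if i / 2 + 1 = K then 0 else i / 2 + 1 := by
        by_cases h : i / 2 + 1 = K
        · rw [if_pos h, h, Nat.mod_self]
        · rw [if_neg h, Nat.mod_eq_of_lt (by omega)]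
      have e2 : (j / 2 + 1) % K = if j / 2 + 1 = K then 0 else j / 2 + 1 := by
        by_cases h : j / 2 + 1 = K
        · rw [if_pos h, h, Nat.mod_self]
        · rw [if_neg h, Nat.mod_eq_of_lt (by omega)]
      rw [e1, e2] at this
      by_cases h3 : i / 2 + 1 = K <;> by_cases h4 : j / 2 + 1 = K
      · omega
      · rw [if_pos h3, if_neg h4] at this; omega
      · rw [if_neg h3, if_pos h4] at this; omega
      · rw [if_neg h3, if_neg h4] at this; omega
  have hoi : ∀ i j, out i ≠ inn j := by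
    intro i j h
    by_cases h1 : i % 2 = 0 <;> by_cases h2 : j % 2 = 0 <;>
      simp only [out, inn, h1, h2, if_true, if_false] at h <;>
      exact absurd (hP'inj _ _ _ _ h).2 (by decide)
  have hwB : ∀ i j, w i ∉ B j := by
    intro i j h
    have h0 : w i = P' (i / 2) 0 ∨ w i = P' (i / 2) 1 := by
      by_cases h1 : i % 2 = 0
      · left; simp only [w, h1, if_true]
      · right; simp only [w, h1, if_false]
    have h1 := hTR _ (houtS j) ⟨(i / 2) % K, Nat.mod_lt _ hK⟩
    have h2 := hTR _ (hinnS j) ⟨(i / 2) % K, Nat.mod_lt _ hK⟩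
    rcases mem_union.mp h with h3 | h3 <;> rcases h0 with h0 | h0 <;> rw [h0] at h3
    · exact h1.1 h3
    · exact h1.2 h3
    · exact h2.1 h3
    · exact h2.2 h3
  have hw : ∀ i < 2 * K, ∀ j < 2 * K, w i = w j → i = j := by
    intro i hi j hj h
    by_cases h1 : i % 2 = 0 <;> by_cases h2 : j % 2 = 0 <;>
      simp only [w, h1, h2, if_true, if_false] at h
    · have := (hP'inj _ _ _ _ h).1
      rw [Nat.mod_eq_of_lt (by omega), Nat.mod_eq_of_lt (by omega)] at this
      omega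
    · exact absurd (hP'inj _ _ _ _ h).2 (by decide)
    · exact absurd (hP'inj _ _ _ _ h).2 (by decide)
    · have := (hP'inj _ _ _ _ h).1
      rw [Nat.mod_eq_of_lt (by omega), Nat.mod_eq_of_lt (by omega)] at this
      omega
  obtain ⟨v, c, hc, hsup, hedges⟩ := Pool.Agent.Helper19.Ch.cycle_of_blocks G (2 * K - 1) (by omega)
    w (fun i hi j hj h => hw i (by omega) j (by omega) h) B
    (fun i hi => (hT _ (houtS i)).2.union_of_touch (hT _ (hinnS i)).2
      (hTT _ (houtS i) _ (hinnS i) (hoi i i)).2)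
    (by
      intro i hi j hj hij
      rw [Finset.disjoint_union_left, Finset.disjoint_union_right, Finset.disjoint_union_right]
      refine ⟨⟨(hTT _ (houtS i) _ (houtS j) ?_).1, (hTT _ (houtS i) _ (hinnS j) (hoi i j)).1⟩,
        (hTT _ (hinnS i) _ (houtS j) (hoi j i).symm).1, (hTT _ (hinnS i) _ (hinnS j) ?_).1⟩
      · exact fun h => hij (hoo i (by omega) j (by omega) h)
      · exact fun h => hij (hii i (by omega) j (by omega) h))
    (fun i _ j _ => hwB i j)
    (by
      intro i _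
      refine ⟨out i, mem_union_left _ (hT _ (houtS i)).1, ?_⟩
      by_cases h1 : i % 2 = 0
      · simp only [w, out, h1, if_true]; exact (hadj' _).2.2.1
      · simp only [w, out, h1, if_false]; exact (hadj' _).2.2.2.2)
    (by
      intro i hi
      refine ⟨inn i, mem_union_right _ (hT _ (hinnS i)).1, ?_⟩
      by_cases h1 : i % 2 = 0
      · have h2 : ¬ (i + 1) % 2 = 0 := by omega
        have h3 : (i + 1) / 2 = i / 2 := by omega
        simp only [w, inn, h1, h2, h3, if_true, if_false]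
        exact (hadj' _).2.2.2.1.symm
      · have h2 : (i + 1) % 2 = 0 := by omega
        have h3 : (i + 1) / 2 = i / 2 + 1 := by omega
        simp only [w, inn, h1, h2, h3, if_true, if_false]
        exact (hadj' _).2.1.symm)
    (by
      refine ⟨inn (2 * K - 1), mem_union_right _ (hT _ (hinnS _)).1, ?_⟩
      have h1 : ¬ (2 * K - 1) % 2 = 0 := by omega
      have h2 : (2 * K - 1) / 2 + 1 = K := by omega
      have h3 : P' K = P' 0 := by
        simp only [P', Nat.mod_self, Nat.zero_mod]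
      have h4 : w 0 = P' 0 0 := by simp [w]
      rw [h4]
      simp only [inn, h1, h2, if_false, h3]
      exact (hadj' 0).2.1.symm)
  refine ⟨v, c, hc, ?_⟩
  let f : Fin K → Sym2 V := fun k => s(P k 0, P k 1)
  have hPk : ∀ k : Fin K, w (2 * k) = P k 0 ∧ w (2 * k + 1) = P k 1 := by
    intro k
    have e1 : (2 * (k : ℕ)) % 2 = 0 := by omega
    have e2 : (2 * (k : ℕ)) / 2 = k := by omega
    have e3 : ¬ (2 * (k : ℕ) + 1) % 2 = 0 := by omega
    have e4 : (2 * (k : ℕ) + 1) / 2 = k := by omega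
    have e5 : P' k = P k := by
      simp only [P', Nat.mod_eq_of_lt k.2]
    constructor
    · simp only [w, e1, e2, if_true, e5]
    · simp only [w, e3, e4, if_false, e5]
  have hfinj : Function.Injective f := by
    intro k l hkl
    simp only [f, Sym2.eq_iff] at hkl
    rcases hkl with ⟨h, _⟩ | ⟨h, _⟩
    · exact congrArg Prod.fst (hinj (a₁ := (k, 0)) (a₂ := (l, 0)) h)
    · exact congrArg Prod.fst (hinj (a₁ := (k, 0)) (a₂ := (l, 1)) h)
  have hsub : Set.range f ⊆
      {e : Sym2 V | e ∈ G.edgeSet ∧ (∀ x ∈ e, x ∈ c.support) ∧ e ∉ c.edges} := by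
    rintro _ ⟨k, rfl⟩
    have hk := k.2
    refine ⟨(hadj k).1, ?_, ?_⟩
    · intro x hx
      simp only [f, Sym2.mem_iff] at hx
      rcases hx with h | h
      · rw [h, ← (hPk k).1]; exact hsup _ (by omega)
      · rw [h, ← (hPk k).2]; exact hsup _ (by omega)
    · intro he
      obtain ⟨j, _, x, hxB, hx⟩ := hedges _ he
      simp only [f, Sym2.mem_iff] at hx
      rcases hx with h | h
      · rw [h, ← (hPk k).1] at hxB; exact hwB _ _ hxB
      · rw [h, ← (hPk k).2] at hxB; exact hwB _ _ hxB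
  refine ⟨Finset.univ.image f, ?_, ?_, ?_⟩
  · rw [card_image_of_injective _ hfinj, card_univ, Fintype.card_fin]
  · intro e he
    obtain ⟨k, _, rfl⟩ := mem_image.mp he
    exact hsub ⟨k, rfl⟩
  · intro e he e' he' x hx hx'
    obtain ⟨k, _, rfl⟩ := mem_image.mp he
    obtain ⟨l, _, rfl⟩ := mem_image.mp he'
    simp only [f, Sym2.mem_iff] at hx hx'
    have hkl : k = l := by
      rcases hx with h | h <;> rcases hx' with h' | h'
      · exact congrArg Prod.fst (hinj (a₁ := (k, 0)) (a₂ := (l, 0)) (h.symm.trans h'))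
      · exact congrArg Prod.fst (hinj (a₁ := (k, 0)) (a₂ := (l, 1)) (h.symm.trans h'))
      · exact congrArg Prod.fst (hinj (a₁ := (k, 1)) (a₂ := (l, 0)) (h.symm.trans h'))
      · exact congrArg Prod.fst (hinj (a₁ := (k, 1)) (a₂ := (l, 1)) (h.symm.trans h'))
    rw [hkl]

/-- the main construction for `n ≥ exp (exp (A K^3))` -/
theorem main75 (K : ℕ) (hK : 0 < K) (G : SimpleGraph V) (hG : PM G) (hB : Big K (Fintype.card V))
    (hg : NoShort G (2 * (576 * 15 ^ 2 + 1) + 30)) :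
    ∃ (v : V) (c : G.Walk v v), c.IsCycle ∧ ∃ M : Finset (Sym2 V), M.card = K ∧ DisjChords c M := by
  have h1 : ∀ W : Finset V, (nb G W).card ≤ 6 * K →
      W.card ≤ Cc K ∨ (Finset.univ \ (W ∪ nb G W)).card ≤ Cc K :=
    fun W hW => pocket75 (6 * K) G hG hB.b1 hB.b2 W hW
  obtain ⟨P, hinj, hadj, hP⟩ := gadgets75 K G hG hB hg
  set C := Cc K with hC
  set q := (4 * K) * (4 * K) + 2 * (4 * K) + 1 + 2 * K + 4 * K + C + 1 with hq
  have hn5 : 5 ≤ Fintype.card V := by
    have := hB.b2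
    omega
  have hexp : ∀ W : Finset V, W.Nonempty → 4 * W.card ≤ 3 * Fintype.card V →
      (W.card : ℝ) ≤ 18 * (1 + Real.log (Fintype.card V)) ^ 2 * (nb G W).card :=
    expand75 G hG (by omega)
  obtain ⟨A, hA, hd, ht⟩ := kq75 q G (by omega) hB.b7 hexp
  let R : Finset V := Finset.univ.image (fun x : Fin K × Fin 2 => P x.1 (x.2.castLE (by norm_num)))
  let S : Finset V := Finset.univ.image (fun x : Fin K × Fin 4 => P x.1 (x.2.natAdd 2))
  have hR : ∀ x, x ∈ R ↔ ∃ i, x = P i 0 ∨ x = P i 1 := by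
    intro x
    simp only [R, mem_image, mem_univ, true_and]
    constructor
    · rintro ⟨⟨i, a⟩, rfl⟩
      refine ⟨i, ?_⟩
      fin_cases a
      · exact Or.inl rfl
      · exact Or.inr rfl
    · rintro ⟨i, h | h⟩
      · exact ⟨(i, 0), h.symm⟩
      · exact ⟨(i, 1), h.symm⟩
  have hRc : R.card ≤ 2 * K := by
    refine card_image_le.trans ?_
    simp [mul_comm]
  have hS : ∀ i, P i 2 ∈ S ∧ P i 3 ∈ S ∧ P i 4 ∈ S ∧ P i 5 ∈ S := by
    intro i
    simp only [S, mem_image, mem_univ, true_and]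
    exact ⟨⟨(i, 0), rfl⟩, ⟨(i, 1), rfl⟩, ⟨(i, 2), rfl⟩, ⟨(i, 3), rfl⟩⟩
  have hSc : S.card = 4 * K := by
    have : Function.Injective (fun x : Fin K × Fin 4 => P x.1 (x.2.natAdd 2)) := by
      rintro ⟨i, a⟩ ⟨j, b⟩ h
      have := hinj (a₁ := (i, a.natAdd 2)) (a₂ := (j, b.natAdd 2)) h
      simp only [Prod.mk.injEq] at this
      obtain ⟨h1, h2⟩ := this
      rw [h1, Fin.natAdd_injective _ _ h2]
    rw [show S = Finset.univ.image (fun x : Fin K × Fin 4 => P x.1 (x.2.natAdd 2)) from rfl,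
      card_image_of_injective _ this]
    simp [mul_comm]
  have hSR : ∀ s ∈ S, s ∉ R := by
    intro s hs h
    obtain ⟨⟨i, a⟩, _, rfl⟩ := mem_image.mp hs
    obtain ⟨j, h | h⟩ := (hR _).mp h
    · have := hinj (a₁ := (i, a.natAdd 2)) (a₂ := (j, 0)) h
      simp only [Prod.mk.injEq] at this
      have h2 := this.2
      fin_cases a <;> exact absurd h2 (by decide)
    · have := hinj (a₁ := (i, a.natAdd 2)) (a₂ := (j, 1)) h
      simp only [Prod.mk.injEq] at this
      have h2 := this.2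
      fin_cases a <;> exact absurd h2 (by decide)
  let ι := {j : Fin q // Disjoint (A j) R}
  have hιc : q ≤ Fintype.card ι + 2 * K := by
    have h5 : ((Finset.univ : Finset (Fin q)).filter (fun l => Disjoint (A l) R)).card +
        ((Finset.univ : Finset (Fin q)).filter (fun l => ¬ Disjoint (A l) R)).card = q := by
      have := card_filter_add_card_filter_not (s := (Finset.univ : Finset (Fin q)))
        (fun l => Disjoint (A l) R)
      simpa using this
    have h6 : ((Finset.univ : Finset (Fin q)).filter (fun l => ¬ Disjoint (A l) R)).card ≤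
        R.card := by
      have key : ∀ l ∈ (Finset.univ : Finset (Fin q)).filter (fun l => ¬ Disjoint (A l) R),
          ∃ x, x ∈ A l ∧ x ∈ R := by
        intro l hl
        exact Finset.not_disjoint_iff.mp (mem_filter.mp hl).2
      have : Nonempty V := Fintype.card_pos_iff.mp (by
        have := hSc
        have h7 : S.card ≤ Fintype.card V := card_le_univ _
        omega)
      choose! f hf using key
      refine card_le_card_of_injOn f (fun l hl => (hf l hl).2) ?_
      intro l hl l' hl' hll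
      by_contra hne
      exact Finset.disjoint_left.mp (hd l l' hne) (hf l hl).1 (hll ▸ (hf l' hl').1)
    have h7 : Fintype.card ι =
        ((Finset.univ : Finset (Fin q)).filter (fun l => Disjoint (A l) R)).card := by
      rw [Fintype.card_subtype]
    omega
  have hrt := Pool.Agent.Helper70.Rooted.rooted_of_menger
    (fun H A B k h => Pool.Agent.Helper19.Ch.menger H A B k h) (cut G R) S
    (fun j : ι => A j.1) (fun j => conn_cut (hA j.1) j.2)
    (fun i j hij => hd i.1 j.1 (fun h => hij (Subtype.ext h)))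
    (fun i j hij => by
      obtain ⟨x, hx, y, hy, hxy⟩ := ht i.1 j.1 (fun h => hij (Subtype.ext h))
      exact ⟨x, hx, y, hy, hxy, Finset.disjoint_left.mp i.2 hx, Finset.disjoint_left.mp j.2 hy⟩)
    (by rw [hSc]; omega)
    (fun W hW j => sep_cond P h1 hP R S hR hRc hS (fun j : ι => A j.1)
      (fun j => hA j.1) (fun i j hij => hd i.1 j.1 (fun h => hij (Subtype.ext h)))
      (fun i j hij => ht i.1 j.1 (fun h => hij (Subtype.ext h))) (fun j => j.2)
      (by omega) W (by rw [hSc] at hW; exact hW) j)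
  obtain ⟨T, hT, hTT⟩ := hrt
  refine assembly75 hK P hinj hadj S hS T (fun s hs => ⟨(hT s hs).1, conn_of_cut (hT s hs).2⟩)
    (fun s hs s' hs' hne => ⟨(hTT s hs s' hs' hne).1, ?_⟩) ?_
  · obtain ⟨x, hx, y, hy, hxy⟩ := (hTT s hs s' hs' hne).2
    exact ⟨x, hx, y, hy, hxy.1⟩
  · intro s hs i
    have := disjoint_of_cut (hT s hs).2 (hT s hs).1 (hSR s hs)
    exact ⟨this _ ((hR _).mpr ⟨i, Or.inl rfl⟩), this _ ((hR _).mpr ⟨i, Or.inr rfl⟩)⟩

end Pool.Agent.Helper75.ChQ
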