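import Pool.Agent.Helper75.ChQ.Num
import Pool.Agent.Helper75.Ch.Gadgets
import Pool.Agent.Helper88.Ch.KqModel

/-!
# Explicit thresholds for the parts of the construction

Quantitative versions of `numeric` (Helper92, Helper88), `sunflower`, `pm_pocket`, `pm_triple`, `kq_model` and `gadgets`.
-/

set_option autoImplicit false
set_option linter.unusedSectionVars false
set_option linter.unusedSimpArgs false

namespace Pool.Agent.Helper75.ChQ

open Finset Classical Pool.Agent.Helper75.Ch Pool.Agent.Helper92.Ch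

/-- pieces with small gain are bounded. -/
theorem numeric92 (k m n : ℕ) (hn : (400 * (k + 1)) ^ 4 ≤ n) (hm : 1 ≤ m) (hmn : 5 * m ≤ 3 * n)
    (hk : (tau m - tau n) * m ≤ 3 * k) : m ≤ 576 * k ^ 2 + 1 := by
  have hmn' : m ≤ n := by omega
  have hm0 : (0:ℝ) < m := by exact_mod_cast hm
  have hm1 : (1:ℝ) ≤ m := by exact_mod_cast hm
  have hnbig : (400 * ((k:ℝ) + 1)) ^ 4 ≤ n := by exact_mod_cast hn
  have hk0 : (0:ℝ) ≤ k := Nat.cast_nonneg k
  have hn1 : (1:ℝ) ≤ n := by
    refine le_trans ?_ hnbig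
    have : (1:ℝ) ≤ 400 * ((k:ℝ) + 1) := by linarith
    exact one_le_pow₀ this
  have hn0 : (0:ℝ) < n := by linarith
  have h1 : 0 ≤ Real.log m := Real.log_natCast_nonneg m
  have h2 : 0 ≤ Real.log n := Real.log_natCast_nonneg n
  -- the fourth root of `n`
  set t : ℝ := (n:ℝ) ^ (1 / (4:ℝ)) with ht
  have ht0 : 0 < t := Real.rpow_pos_of_pos hn0 _
  have ht4 : t ^ 4 = n := by
    rw [ht, ← Real.rpow_natCast, ← Real.rpow_mul hn0.le]
    norm_num
  have htbig : 400 * ((k:ℝ) + 1) ≤ t := by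
    by_contra hcon
    push Not at hcon
    have : t ^ 4 < (400 * ((k:ℝ) + 1)) ^ 4 := pow_lt_pow_left₀ hcon ht0.le (by norm_num)
    linarith
  -- log bound: (1 + log n)^2 ≤ 64 t
  have hlog : (1 + Real.log n) ^ 2 ≤ 64 * t := by
    have h := one_add_log_le hn1 8 (by norm_num)
    have hu0 : 0 < (n:ℝ) ^ (1 / ((8:ℕ):ℝ)) := Real.rpow_pos_of_pos hn0 _
    have hu2 : ((n:ℝ) ^ (1 / ((8:ℕ):ℝ))) ^ 2 = t := by
      rw [ht, ← Real.rpow_natCast, ← Real.rpow_mul hn0.le]
      norm_num
    calc (1 + Real.log n) ^ 2 ≤ (((8:ℕ):ℝ) * (n:ℝ) ^ (1 / ((8:ℕ):ℝ))) ^ 2 := by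
          apply pow_le_pow_left₀ (by positivity) h
      _ = 64 * t := by rw [mul_pow, hu2]; norm_num
  -- first: m ≤ t^2
  have hmt : (m:ℝ) < t ^ 2 := by
    by_contra hcon
    push Not at hcon
    have g := gain hm hmn
    have g2 : 1 / (128 * t) ≤ tau m - tau n := by
      refine le_trans ?_ g
      apply one_div_le_one_div_of_le (by positivity)
      linarith
    have g3 : 1 / (128 * t) * t ^ 2 ≤ 3 * k := by
      refine le_trans ?_ hk
      apply mul_le_mul g2 hcon (by positivity)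
      have : 0 ≤ 1 / (128 * t) := by positivity
      linarith
    have g4 : 1 / (128 * t) * t ^ 2 = t / 128 := by field_simp
    rw [g4] at g3
    linarith
  -- second: gain is at least 1 / (4 (1 + log m))
  have hlogm : Real.log m ≤ Real.log n / 2 := by
    have : Real.log m ≤ Real.log (t ^ 2) := Real.log_le_log hm0 hmt.le
    rw [Real.log_pow] at this
    have e : Real.log n = 4 * Real.log t := by
      rw [← ht4, Real.log_pow]; norm_num
    rw [e]
    push_cast at this
    linarith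
  have hlogn : 1 ≤ Real.log n := by
    have e : Real.log n = 4 * Real.log t := by
      rw [← ht4, Real.log_pow]; norm_num
    have h3 : Real.log (5/3) ≤ Real.log t := Real.log_le_log (by norm_num) (by linarith)
    have := half_lt_log
    linarith
  have hgain : 1 / (4 * (1 + Real.log m)) ≤ tau m - tau n := by
    rw [tau_sub hm hmn', div_le_div_iff₀ (by positivity) (by positivity)]
    nlinarith
  have h5 : 1 / (4 * (1 + Real.log m)) * m ≤ 3 * k :=
    le_trans (mul_le_mul_of_nonneg_right hgain hm0.le) hk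
  have h6 : (m:ℝ) ≤ 12 * k * (1 + Real.log m) := by
    rw [one_div, ← div_eq_inv_mul, div_le_iff₀ (by positivity)] at h5
    linarith
  have h7 := one_add_log_le hm1 2 (by norm_num)
  set s : ℝ := (m:ℝ) ^ (1 / ((2:ℕ):ℝ)) with hs
  have hs0 : 0 < s := Real.rpow_pos_of_pos hm0 _
  have hs2 : s ^ 2 = m := by
    rw [hs, ← Real.rpow_natCast, ← Real.rpow_mul hm0.le]
    norm_num
  have h8 : s ^ 2 ≤ 24 * k * s := by
    rw [hs2]
    refine le_trans h6 ?_
    have : 12 * (k:ℝ) * (1 + Real.log m) ≤ 12 * k * (((2:ℕ):ℝ) * s) :=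
      mul_le_mul_of_nonneg_left h7 (by positivity)
    push_cast at this
    linarith
  have h9 : s ≤ 24 * k := by nlinarith
  have h10 : (m:ℝ) ≤ 576 * k ^ 2 := by
    rw [← hs2]
    nlinarith
  have : (m:ℝ) ≤ ((576 * k ^ 2 + 1 : ℕ) : ℝ) := by
    push_cast
    linarith
  exact_mod_cast this

/-- bounded separators cut off bounded pieces. -/
theorem pocket75 (k : ℕ) {V : Type} [Fintype V] (G : SimpleGraph V) (hG : PM G)
    (hn' : (400 * (k + 1)) ^ 4 ≤ Fintype.card V) (hn'' : 5 * k + 5 ≤ Fintype.card V)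
    (W : Finset V) (hWk : (nb G W).card ≤ k) :
      W.card ≤ 576 * k ^ 2 + 1 ∨ (Finset.univ \ (W ∪ nb G W)).card ≤ 576 * k ^ 2 + 1 := by
  have hC := numeric92 k
  by_cases hW : W.Nonempty
  swap
  · left
    rw [not_nonempty_iff_eq_empty] at hW
    rw [hW]; simp
  by_cases hX : W ∪ nb G W = univ
  · right
    rw [hX]; simp
  obtain ⟨p1, p2, hn1, hn2⟩ := pocket_aux G hG W ∅ hW hX (by simp) k (by simpa using hWk)
  obtain ⟨c1, c2, c3⟩ := card_facts G W
  by_cases h : 5 * (W ∪ nb G W).card ≤ 3 * Fintype.card V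
  · left
    have := hC _ _ hn' hn1 h p1
    omega
  · right
    have h' : 5 * (univ \ W).card ≤ 3 * Fintype.card V := by omega
    have := hC _ _ hn' hn2 h' p2
    refine le_trans (card_le_card ?_) this
    exact sdiff_subset_sdiff (subset_refl _) subset_union_left

/-- expansion -/
theorem expand75 {V : Type} [Fintype V] (G : SimpleGraph V) (hG : PM G) (hn : 1 ≤ Fintype.card V)
    (W : Finset V) (hW : W.Nonempty) (hWc : 4 * W.card ≤ 3 * Fintype.card V) :
      (W.card : ℝ) ≤ 18 * (1 + Real.log (Fintype.card V)) ^ 2 * (nb G W).card := by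
  obtain ⟨c1, c2, c3⟩ := card_facts G W
  have hl : 0 ≤ Real.log (Fintype.card V) := Real.log_natCast_nonneg _
  have hW1 : 1 ≤ W.card := hW.card_pos
  have hsq : (1:ℝ) ≤ (1 + Real.log (Fintype.card V)) ^ 2 := one_le_pow₀ (by linarith)
  have triv : (W.card ≤ 18 * (nb G W).card) →
      (W.card : ℝ) ≤ 18 * (1 + Real.log (Fintype.card V)) ^ 2 * (nb G W).card := by
    intro h
    have h' : (W.card : ℝ) ≤ 18 * (nb G W).card := by exact_mod_cast h
    have h0 : (0:ℝ) ≤ (nb G W).card := Nat.cast_nonneg _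
    nlinarith
  by_cases hX : W ∪ nb G W = univ
  · apply triv
    have : (W ∪ nb G W).card = Fintype.card V := by rw [hX, card_univ]
    omega
  have hP := potential G hG W ∅ hW hX (by simp)
  rw [sdiff_empty] at hP
  have hn2 : 1 ≤ (univ \ W).card := by
    by_contra hcon
    have : W.card = Fintype.card V := by omega
    omega
  have hn1 : 1 ≤ (W ∪ nb G W).card := by omega
  have a1 := tau_anti hn1 c3
  have a2 := tau_anti hn2 (by omega : (univ \ W).card ≤ Fintype.card V)
  have t0 := tau_pos (Fintype.card V)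
  set n := Fintype.card V with hndef
  set n1 := (W ∪ nb G W).card with hn1def
  set n2 := (univ \ W).card with hn2def
  have e1 : (n1:ℝ) = W.card + (nb G W).card := by exact_mod_cast c1
  have e2 : (W.card:ℝ) + n2 = n := by exact_mod_cast c2
  have b1 : (0:ℝ) ≤ n1 := Nat.cast_nonneg _
  have b2 : (0:ℝ) ≤ n2 := Nat.cast_nonneg _
  have b3 : (0:ℝ) ≤ (nb G W).card := Nat.cast_nonneg _
  have hP' : (tau n1 - tau n) * n1 + (tau n2 - tau n) * n2 ≤ 3 * (nb G W).card := by
    have : tau n * n ≤ tau n * (n1 + n2) := by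
      apply mul_le_mul_of_nonneg_left _ t0.le
      linarith
    nlinarith
  have p1 : 0 ≤ (tau n1 - tau n) * n1 := mul_nonneg (by linarith) b1
  have p2 : 0 ≤ (tau n2 - tau n) * n2 := mul_nonneg (by linarith) b2
  have hS : 0 < (1 + Real.log (n:ℝ)) ^ 2 := by positivity
  by_cases hW2 : 2 * W.card ≤ n
  · by_cases h6 : 5 * n1 ≤ 3 * n
    · have g := gain hn1 h6
      have g2 : 1 / (2 * (1 + Real.log (n:ℝ)) ^ 2) * n1 ≤ 3 * (nb G W).card := by
        have := mul_le_mul_of_nonneg_right g b1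
        linarith
      rw [one_div, ← div_eq_inv_mul, div_le_iff₀ (by positivity)] at g2
      nlinarith
    · apply triv
      omega
  · have h6 : 5 * n2 ≤ 3 * n := by omega
    have g := gain hn2 h6
    have g2 : 1 / (2 * (1 + Real.log (n:ℝ)) ^ 2) * n2 ≤ 3 * (nb G W).card := by
      have := mul_le_mul_of_nonneg_right g b2
      linarith
    rw [one_div, ← div_eq_inv_mul, div_le_iff₀ (by positivity)] at g2
    have h7 : (W.card:ℝ) ≤ 3 * n2 := by
      have : W.card ≤ 3 * n2 := by omega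
      exact_mod_cast this
    nlinarith

/-- hubs do not count as boundary. -/
theorem triple75 (D : ℕ) {V : Type} [Fintype V] (G : SimpleGraph V)
    (hG : PM G) (hn' : (400 * (15 + 1)) ^ 4 ≤ Fintype.card V) (hn'' : 2 * D + 1 ≤ Fintype.card V)
    (W Z : Finset V) (hD : (W ∪ nb G W).card ≤ D) (hk : (nb G W \ Z).card ≤ 15)
    (hZ : ∀ z ∈ Z, z ∈ nb G W → 3 ≤ (nbv G z ∩ W).card ∧ 3 ≤ (nbv G z \ W).card) :
      (W ∪ nb G W).card ≤ 576 * 15 ^ 2 + 1 := by
  have hC := numeric92 15
  by_cases hW : W.Nonempty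
  swap
  · rw [not_nonempty_iff_eq_empty] at hW
    have : nb G W = ∅ := by
      ext x
      rw [mem_nb', hW]
      simp
    rw [this, hW]; simp
  have hX : W ∪ nb G W ≠ univ := by
    intro h
    rw [h, card_univ] at hD
    omega
  obtain ⟨p1, p2, hn1, hn2⟩ := pocket_aux G hG W Z hW hX hZ 15 hk
  exact hC _ _ hn' hn1 (by omega) (by exact_mod_cast p1)

/-- choice of `ρ`, `s` -/
theorem numeric88 (q n : ℕ) (hn3 : 3 ≤ n)
    (hbig : 66304 * ((q : ℝ) + 1) ^ 2 * (1 + Real.log n) ^ 5 < n) :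
    ∃ ρ s : ℕ, (n : ℝ) < (1 + 1 / (2 * (18 * (1 + Real.log n) ^ 2))) ^ ρ ∧
      1 + q * (2 * ρ + 2) ≤ s ∧
      8 * ((2 * (18 * (1 + Real.log n) ^ 2) + 1) * ((q + 1) * s)) < (n : ℝ) := by
  have hn3R : (3 : ℝ) ≤ n := by exact_mod_cast hn3
  have hn0 : (0 : ℝ) < n := by linarith
  have hlog1 : 1 ≤ Real.log n := by
    rw [Real.le_log_iff_exp_le hn0]
    have := Real.exp_one_lt_d9
    linarith
  set L : ℝ := 1 + Real.log n with hL
  have hL1 : 1 ≤ L := by linarith
  have hL2 : L ≤ 2 * Real.log n := by linarith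
  have hbig2 : 66304 * ((q : ℝ) + 1) ^ 2 * L ^ 5 < n := hbig
  set H : ℝ := 2 * (18 * L ^ 2) with hH
  have hHL : H = 36 * L ^ 2 := by rw [hH]; ring
  have hL2' : 1 ≤ L ^ 2 := one_le_pow₀ hL1
  have hH1 : 1 ≤ H := by rw [hHL]; linarith
  set c : ℕ := Nat.ceil H with hc
  have hcH : H ≤ c := Nat.le_ceil H
  have hcH' : (c : ℝ) ≤ 37 * L ^ 2 := by
    have := Nat.ceil_lt_add_one (by linarith : 0 ≤ H)
    rw [← hc] at this
    linarith
  set l : ℕ := Nat.log 2 n + 1 with hl
  have hnl : n < 2 ^ l := Nat.lt_pow_succ_log_self (by norm_num) n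
  have hlL : (l : ℝ) ≤ 3 * L := by
    have h1 : (2 : ℝ) ^ (Nat.log 2 n) ≤ n := by
      exact_mod_cast Nat.pow_log_le_self 2 (by omega)
    have h2 : (Nat.log 2 n : ℝ) * Real.log 2 ≤ Real.log n := by
      rw [← Real.log_pow]
      exact Real.log_le_log (by positivity) h1
    have h3 : (1 : ℝ) / 2 ≤ Real.log 2 := by have := Real.log_two_gt_d9; linarith
    have h4 : (Nat.log 2 n : ℝ) * (1 / 2) ≤ Real.log n :=
      (mul_le_mul_of_nonneg_left h3 (by positivity)).trans h2
    rw [hl]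
    push_cast
    linarith
  refine ⟨c * l, 1 + q * (2 * (c * l) + 2), ?_, le_refl _, ?_⟩
  · -- Bernoulli
    have h1 : (2 : ℝ) ≤ (1 + 1 / H) ^ c := by
      have hb := one_add_mul_le_pow (a := 1 / H) (by
        have : 0 ≤ 1 / H := by positivity
        linarith) c
      have : (1 : ℝ) ≤ c * (1 / H) := by
        rw [mul_one_div, le_div_iff₀ (by linarith)]
        linarith
      linarith
    calc (n : ℝ) < 2 ^ l := by exact_mod_cast hnl
      _ ≤ ((1 + 1 / H) ^ c) ^ l := pow_le_pow_left₀ (by norm_num) h1 l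
      _ = (1 + 1 / H) ^ (c * l) := by rw [pow_mul]
  · have hq0 : (0 : ℝ) ≤ q := by positivity
    have hcl : (c : ℝ) * l ≤ 111 * L ^ 3 := by
      calc (c : ℝ) * l ≤ (37 * L ^ 2) * (3 * L) :=
            mul_le_mul hcH' hlL (by positivity) (by positivity)
        _ = 111 * L ^ 3 := by ring
    have hL3 : 1 ≤ L ^ 3 := one_le_pow₀ hL1
    have hs : ((1 + q * (2 * (c * l) + 2) : ℕ) : ℝ) ≤ (q + 1) * (224 * L ^ 3) := by
      push_cast
      have h1 : 2 * ((c : ℝ) * l) + 2 ≤ 224 * L ^ 3 := by linarith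
      have h2 : (q : ℝ) * (2 * ((c : ℝ) * l) + 2) ≤ q * (224 * L ^ 3) :=
        mul_le_mul_of_nonneg_left h1 hq0
      linarith
    have hH2 : H + 1 ≤ 37 * L ^ 2 := by linarith
    calc 8 * ((H + 1) * ((q + 1) * ((1 + q * (2 * (c * l) + 2) : ℕ) : ℝ)))
        ≤ 8 * ((37 * L ^ 2) * ((q + 1) * ((q + 1) * (224 * L ^ 3)))) := by
          apply mul_le_mul_of_nonneg_left _ (by norm_num)
          apply mul_le_mul hH2 _ (by positivity) (by positivity)
          exact mul_le_mul_of_nonneg_left hs (by positivity)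
      _ = 66304 * ((q : ℝ) + 1) ^ 2 * L ^ 5 := by ring
      _ < n := hbig2

/-- `K_q` minor in a graph with vertex expansion `1/polylog`. -/
theorem kq75 (q : ℕ) {V : Type} [Fintype V] (G : SimpleGraph V) (hn3 : 3 ≤ Fintype.card V)
    (hbig : 66304 * ((q : ℝ) + 1) ^ 2 * (1 + Real.log (Fintype.card V)) ^ 5 < Fintype.card V)
    (hexp : ∀ W : Finset V, W.Nonempty → 4 * W.card ≤ 3 * Fintype.card V →
      (W.card : ℝ) ≤ 18 * (1 + Real.log (Fintype.card V)) ^ 2 * (nb G W).card) :
    ∃ A : Fin q → Finset V, (∀ i, Conn G (A i)) ∧ (∀ i j, i ≠ j → Disjoint (A i) (A j)) ∧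
      (∀ i j, i ≠ j → Touch G (A i) (A j)) := by
  obtain ⟨ρ, s, hρ, hs, hn⟩ := numeric88 q (Fintype.card V) hn3 hbig
  have hlog : 0 ≤ Real.log (Fintype.card V) := by
    apply Real.log_nonneg
    have : 1 ≤ Fintype.card V := by omega
    exact_mod_cast this
  obtain ⟨F, hF, hconn, hdisj, htouch⟩ := Pool.Agent.Helper88.Ch.prs G q s ρ (18 * (1 + Real.log (Fintype.card V)) ^ 2)
    (by nlinarith) hexp hρ hs hn
  have e := (F.equivFinOfCardEq hF).symm
  refine ⟨fun i => (e i : Finset V), fun i => hconn _ (e i).2, ?_, ?_⟩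
  · intro i j hij
    exact hdisj _ (e i).2 _ (e j).2 (fun h => hij (e.injective (Subtype.ext h)))
  · intro i j hij
    exact htouch _ (e i).2 _ (e j).2 (fun h => hij (e.injective (Subtype.ext h)))

/-- the size of the sunflower lemma -/
def sunN (p : ℕ) : ℕ → ℕ
  | 0 => p
  | c + 1 => p + p * (c + 1) * sunN p c + 1

/-- the sunflower lemma for indexed families -/
theorem sunflower75 (c p : ℕ) : ∀ {α ι : Type} (s : Finset ι) (R : ι → Finset α),
    (∀ i ∈ s, (R i).card ≤ c) → sunN p c ≤ s.card →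
    ∃ t ⊆ s, p ≤ t.card ∧ ∃ Z : Finset α, ∀ i ∈ t, ∀ j ∈ t, i ≠ j → R i ∩ R j = Z := by
  induction c with
  | zero =>
    refine fun s R hR hs => ⟨s, Subset.refl _, hs, ∅, fun i hi j hj _ => ?_⟩
    have : R i = ∅ := card_eq_zero.mp (Nat.le_zero.mp (hR i hi))
    rw [this, empty_inter]
  | succ c ih =>
    intro α ι s R hR hs
    have hN := @ih
    set N := sunN p c with hNdef
    have hs : p + p * (c + 1) * N + 1 ≤ s.card := hs
    -- maximal disjoint subfamily
    let F := s.powerset.filter (fun t => ∀ i ∈ t, ∀ j ∈ t, i ≠ j → Disjoint (R i) (R j))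
    have hF : F.Nonempty := ⟨∅, by simp [F]⟩
    obtain ⟨t, htF, hmax⟩ := F.exists_max_image (fun t => t.card) hF
    simp only [F, mem_filter, mem_powerset] at htF hmax
    obtain ⟨hts, hdis⟩ := htF
    by_cases hp : p ≤ t.card
    · refine ⟨t, hts, hp, ∅, fun i hi j hj hij => ?_⟩
      exact disjoint_iff_inter_eq_empty.mp (hdis i hi j hj hij)
    push Not at hp
    let Y := t.biUnion R
    have hY : Y.card ≤ p * (c + 1) := by
      refine (card_biUnion_le_card_mul t R (c + 1) (fun i hi => hR i (hts hi))).trans ?_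
      gcongr
    have hmeet : ∀ i ∈ s \ t, ∃ y ∈ Y, y ∈ R i := by
      intro i hi
      rw [mem_sdiff] at hi
      by_contra hcon
      push Not at hcon
      have := hmax (insert i t) ⟨insert_subset hi.1 hts, by
        intro a ha b hb hab
        have key : ∀ b ∈ t, Disjoint (R i) (R b) := by
          intro b hb
          rw [Finset.disjoint_left]
          intro y hy hyb
          exact hcon y (mem_biUnion.mpr ⟨b, hb, hyb⟩) hy
        rcases mem_insert.mp ha with h1 | h1 <;> rcases mem_insert.mp hb with h2 | h2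
        · exact absurd (h1.trans h2.symm) hab
        · subst h1; exact key b h2
        · subst h2; exact (key a h1).symm
        · exact hdis a h1 b h2 hab⟩
      rw [card_insert_of_notMem hi.2] at this
      omega
    have hcard : (s \ t).card ≥ p * (c + 1) * N + 1 := by
      have := card_le_card_sdiff_add_card (s := s) (t := t)
      omega
    haveI : Nonempty α := by
      obtain ⟨i, hi⟩ := card_pos.mp (show 0 < (s \ t).card by omega)
      obtain ⟨y, _, _⟩ := hmeet i hi
      exact ⟨y⟩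
    choose! f hf using hmeet
    obtain ⟨y, hyY, hy⟩ : ∃ y ∈ Y, N < ((s \ t).filter (fun i => f i = y)).card := by
      refine exists_lt_card_fiber_of_mul_lt_card_of_maps_to (fun i hi => (hf i hi).1) ?_
      calc Y.card * N ≤ p * (c + 1) * N := by gcongr
        _ < _ := by omega
    set s' := (s \ t).filter (fun i => f i = y) with hs'
    have hys' : ∀ i ∈ s', y ∈ R i := by
      intro i hi
      rw [hs', mem_filter] at hi
      rw [← hi.2]
      exact (hf i hi.1).2
    obtain ⟨t', ht's, hpt', Z, hZ⟩ := hN s' (fun i => (R i).erase y) (fun i hi => by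
      have h1 : i ∈ s := by
        rw [hs', mem_filter, mem_sdiff] at hi
        exact hi.1.1
      rw [card_erase_of_mem (hys' i hi)]
      have := hR i h1
      omega) hy.le
    refine ⟨t', fun i hi => ?_, hpt', insert y Z, fun i hi j hj hij => ?_⟩
    · have := ht's hi
      rw [hs', mem_filter, mem_sdiff] at this
      exact this.1.1
    · rw [← hZ i hi j hj hij]
      ext z
      simp only [mem_inter, mem_insert, mem_erase]
      constructor
      · rintro ⟨h1, h2⟩
        by_cases hz : z = y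
        · exact Or.inl hz
        · exact Or.inr ⟨⟨hz, h1⟩, hz, h2⟩
      · rintro (h | ⟨⟨_, h1⟩, _, h2⟩)
        · subst h
          exact ⟨hys' i (ht's hi), hys' j (ht's hj)⟩
        · exact ⟨h1, h2⟩

variable {V : Type*} [Fintype V] {G : SimpleGraph V}

theorem sunN_le (p : ℕ) (hp : 1 ≤ p) : ∀ c : ℕ, sunN p c ≤ (p * (c + 3)) ^ (c + 1)
  | 0 => by
    simp only [sunN, zero_add, pow_one]
    omega
  | c + 1 => by
    have ih := sunN_le p hp c
    simp only [sunN]
    have h1 : 1 ≤ (p * (c + 3)) ^ (c + 1) := Nat.one_le_pow _ _ (by positivity)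
    have h2 : (p * (c + 3)) ^ (c + 1) ≤ (p * (c + 1 + 3)) ^ (c + 1) :=
      Nat.pow_le_pow_left (Nat.mul_le_mul_left _ (by omega)) _
    have h3 : p * (c + 1) * sunN p c ≤ p * (c + 1) * (p * (c + 3)) ^ (c + 1) := Nat.mul_le_mul_left _ ih
    have h4 : (p * (c + 1 + 3)) ^ (c + 1 + 1) = p * (c + 1 + 3) * (p * (c + 1 + 3)) ^ (c + 1) := by
      rw [pow_succ (p * (c + 1 + 3)) (c + 1), mul_comm]
    rw [h4]
    have h5 : p * (c + 1 + 3) * (p * (c + 3)) ^ (c + 1) ≤ p * (c + 1 + 3) * (p * (c + 1 + 3)) ^ (c + 1) :=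
      Nat.mul_le_mul_left _ h2
    refine le_trans ?_ h5
    have h6 : p * (c + 1 + 3) * (p * (c + 3)) ^ (c + 1) =
        p * (c + 1) * (p * (c + 3)) ^ (c + 1) + 3 * p * (p * (c + 3)) ^ (c + 1) := by ring
    rw [h6]
    have h7 : p + 1 ≤ 3 * p * (p * (c + 3)) ^ (c + 1) := by
      have : 3 * p * 1 ≤ 3 * p * (p * (c + 3)) ^ (c + 1) := Nat.mul_le_mul_left _ h1
      omega
    omega

/-- numerical threshold -/
theorem small75 (A B n : ℕ) (hA : 2 * (A : ℝ) ≤ Real.log n) (hB : (2 * B + 1 : ℝ) < n) : 0 < n ∧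
    (A : ℝ) * (tau n * n) + B < n := by
  have hB0 : (0 : ℝ) ≤ B := Nat.cast_nonneg _
  have hnr : (0 : ℝ) < n := by linarith
  have hn : 0 < n := by exact_mod_cast hnr
  refine ⟨hn, ?_⟩
  have hA0 : (0 : ℝ) ≤ A := Nat.cast_nonneg _
  have h5 : (A : ℝ) * tau n ≤ 1 / 2 := by
    rw [tau, mul_one_div, div_le_div_iff₀ (by linarith) (by norm_num)]
    linarith
  have h6 : (A : ℝ) * (tau n * n) ≤ 1 / 2 * n := by
    rw [← mul_assoc]
    exact mul_le_mul_of_nonneg_right h5 hnr.le
  linarith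

end Pool.Agent.Helper75.ChQ
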