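import Mathlib

/-!
# Growth classes used for the explicit rate

`E g`: `g K ≤ exp (A K^3)` for all `K ≥ 1`; `DD g`: `g K ≤ exp (exp (A K^3))` for all `K ≥ 1`.
-/

set_option autoImplicit false

namespace Pool.Agent.Helper75.ChQ

/-- single exponential growth in `K^3` -/
def E (g : ℕ → ℝ) : Prop := ∃ A : ℝ, 0 ≤ A ∧ ∀ K : ℕ, 1 ≤ K → g K ≤ Real.exp (A * (K : ℝ) ^ 3)

/-- double exponential growth in `K^3` -/
def DD (g : ℕ → ℝ) : Prop :=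
  ∃ A : ℝ, 0 ≤ A ∧ ∀ K : ℕ, 1 ≤ K → g K ≤ Real.exp (Real.exp (A * (K : ℝ) ^ 3))

theorem one_le_cube {K : ℕ} (hK : 1 ≤ K) : (1 : ℝ) ≤ (K : ℝ) ^ 3 := by
  have : (1 : ℝ) ≤ K := by exact_mod_cast hK
  exact one_le_pow₀ this

theorem two_le_exp_one : (2 : ℝ) ≤ Real.exp 1 := by
  have := Real.exp_one_gt_d9
  linarith

theorem E.mono {f g : ℕ → ℝ} (hg : E g) (h : ∀ K, 1 ≤ K → f K ≤ g K) : E f := by
  obtain ⟨A, hA, hb⟩ := hg
  exact ⟨A, hA, fun K hK => (h K hK).trans (hb K hK)⟩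

theorem E.of_exponent {f : ℕ → ℝ} (A : ℝ) (hA : 0 ≤ A) (h : ∀ K : ℕ, 1 ≤ K → f K ≤ A * (K : ℝ) ^ 3) :
    E fun K => Real.exp (f K) := ⟨A, hA, fun K hK => Real.exp_le_exp.2 (h K hK)⟩

theorem E.const (c : ℝ) : E fun _ => c := by
  refine ⟨|c|, abs_nonneg c, fun K hK => ?_⟩
  have h1 : |c| * 1 ≤ |c| * (K : ℝ) ^ 3 := mul_le_mul_of_nonneg_left (one_le_cube hK) (abs_nonneg c)
  have h2 := Real.add_one_le_exp (|c| * (K : ℝ) ^ 3)
  have h3 := le_abs_self c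
  linarith

theorem E.id : E fun K => (K : ℝ) := by
  refine ⟨1, zero_le_one, fun K hK => ?_⟩
  have h1 : (1 : ℝ) ≤ K := by exact_mod_cast hK
  have h2 : (K : ℝ) ≤ (K : ℝ) ^ 3 := le_self_pow₀ h1 (by norm_num)
  have h3 := Real.add_one_le_exp (1 * (K : ℝ) ^ 3)
  linarith

theorem E.add {f g : ℕ → ℝ} (hf : E f) (hg : E g) : E fun K => f K + g K := by
  obtain ⟨A, hA, ha⟩ := hf
  obtain ⟨B, hB, hb⟩ := hg
  refine ⟨A + B + 1, by linarith, fun K hK => ?_⟩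
  have h1 := one_le_cube hK
  have h2 : Real.exp (A * (K : ℝ) ^ 3) ≤ Real.exp ((A + B) * (K : ℝ) ^ 3) := by
    apply Real.exp_le_exp.2
    have : 0 ≤ B * (K : ℝ) ^ 3 := by positivity
    nlinarith
  have h3 : Real.exp (B * (K : ℝ) ^ 3) ≤ Real.exp ((A + B) * (K : ℝ) ^ 3) := by
    apply Real.exp_le_exp.2
    have : 0 ≤ A * (K : ℝ) ^ 3 := by positivity
    nlinarith
  have h4 : Real.exp ((A + B + 1) * (K : ℝ) ^ 3) =
      Real.exp ((A + B) * (K : ℝ) ^ 3) * Real.exp ((K : ℝ) ^ 3) := by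
    rw [← Real.exp_add]; congr 1; ring
  have h5 : (2 : ℝ) ≤ Real.exp ((K : ℝ) ^ 3) := two_le_exp_one.trans (Real.exp_le_exp.2 h1)
  have h6 := Real.exp_pos ((A + B) * (K : ℝ) ^ 3)
  rw [h4]
  nlinarith [ha K hK, hb K hK]

theorem E.mul {f g : ℕ → ℝ} (hf : E f) (hg : E g) (hg0 : ∀ K, 1 ≤ K → 0 ≤ g K) :
    E fun K => f K * g K := by
  obtain ⟨A, hA, ha⟩ := hf
  obtain ⟨B, hB, hb⟩ := hg
  refine ⟨A + B, by linarith, fun K hK => ?_⟩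
  have h1 : Real.exp ((A + B) * (K : ℝ) ^ 3) =
      Real.exp (A * (K : ℝ) ^ 3) * Real.exp (B * (K : ℝ) ^ 3) := by
    rw [← Real.exp_add]; congr 1; ring
  rw [h1]
  exact mul_le_mul (ha K hK) (hb K hK) (hg0 K hK) (Real.exp_pos _).le

theorem E.sq {f : ℕ → ℝ} (hf : E f) (hf0 : ∀ K, 1 ≤ K → 0 ≤ f K) : E fun K => f K ^ 2 :=
  (hf.mul hf hf0).mono fun K _ => (by rw [_root_.sq])

theorem DD.mono {f g : ℕ → ℝ} (hg : DD g) (h : ∀ K, 1 ≤ K → f K ≤ g K) : DD f := by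
  obtain ⟨A, hA, hb⟩ := hg
  exact ⟨A, hA, fun K hK => (h K hK).trans (hb K hK)⟩

theorem DD.of_E {f : ℕ → ℝ} (hf : E f) : DD f := by
  obtain ⟨A, hA, ha⟩ := hf
  refine ⟨A, hA, fun K hK => (ha K hK).trans ?_⟩
  have := Real.add_one_le_exp (Real.exp (A * (K : ℝ) ^ 3))
  linarith

theorem DD.exp_E {f : ℕ → ℝ} (hf : E f) : DD fun K => Real.exp (f K) := by
  obtain ⟨A, hA, ha⟩ := hf
  exact ⟨A, hA, fun K hK => Real.exp_le_exp.2 (ha K hK)⟩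

private theorem aux75 {a b : ℝ} (ha : 0 ≤ a) (hb : 0 ≤ b) :
    Real.exp a + Real.exp b ≤ Real.exp (a + b + 1) := by
  have h1 : Real.exp a ≤ Real.exp (a + b) := Real.exp_le_exp.2 (by linarith)
  have h2 : Real.exp b ≤ Real.exp (a + b) := Real.exp_le_exp.2 (by linarith)
  have h3 : Real.exp (a + b + 1) = Real.exp (a + b) * Real.exp 1 := by rw [← Real.exp_add]
  have h4 := Real.exp_pos (a + b)
  rw [h3]
  nlinarith [two_le_exp_one]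

theorem DD.mul {f g : ℕ → ℝ} (hf : DD f) (hg : DD g) (hg0 : ∀ K, 1 ≤ K → 0 ≤ g K) :
    DD fun K => f K * g K := by
  obtain ⟨A, hA, ha⟩ := hf
  obtain ⟨B, hB, hb⟩ := hg
  refine ⟨A + B + 1, by linarith, fun K hK => ?_⟩
  have h0 := one_le_cube hK
  have h1 : Real.exp (A * (K : ℝ) ^ 3) + Real.exp (B * (K : ℝ) ^ 3) ≤
      Real.exp ((A + B + 1) * (K : ℝ) ^ 3) := by
    refine (aux75 (by positivity) (by positivity)).trans (Real.exp_le_exp.2 ?_)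
    nlinarith
  calc f K * g K ≤ Real.exp (Real.exp (A * (K : ℝ) ^ 3)) * Real.exp (Real.exp (B * (K : ℝ) ^ 3)) :=
        mul_le_mul (ha K hK) (hb K hK) (hg0 K hK) (Real.exp_pos _).le
    _ = Real.exp (Real.exp (A * (K : ℝ) ^ 3) + Real.exp (B * (K : ℝ) ^ 3)) := by rw [Real.exp_add]
    _ ≤ _ := Real.exp_le_exp.2 h1

theorem DD.add {f g : ℕ → ℝ} (hf : DD f) (hg : DD g) : DD fun K => f K + g K := by
  obtain ⟨A, hA, ha⟩ := hf
  obtain ⟨B, hB, hb⟩ := hg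
  refine ⟨A + B + 1 + 1, by linarith, fun K hK => ?_⟩
  have h0 := one_le_cube hK
  have h1 : Real.exp (A * (K : ℝ) ^ 3) + Real.exp (B * (K : ℝ) ^ 3) ≤
      Real.exp ((A + B + 1) * (K : ℝ) ^ 3) := by
    refine (aux75 (by positivity) (by positivity)).trans (Real.exp_le_exp.2 ?_)
    nlinarith
  have h2 : Real.exp ((A + B + 1) * (K : ℝ) ^ 3) + 1 ≤ Real.exp ((A + B + 1 + 1) * (K : ℝ) ^ 3) := by
    have h3 : Real.exp ((A + B + 1 + 1) * (K : ℝ) ^ 3) =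
        Real.exp ((A + B + 1) * (K : ℝ) ^ 3) * Real.exp ((K : ℝ) ^ 3) := by
      rw [← Real.exp_add]; congr 1; ring
    have h4 : (2 : ℝ) ≤ Real.exp ((K : ℝ) ^ 3) := two_le_exp_one.trans (Real.exp_le_exp.2 h0)
    have h5 : (1 : ℝ) ≤ Real.exp ((A + B + 1) * (K : ℝ) ^ 3) := Real.one_le_exp (by positivity)
    rw [h3]
    nlinarith
  have h6 := aux75 (Real.exp_pos (A * (K : ℝ) ^ 3)).le (Real.exp_pos (B * (K : ℝ) ^ 3)).le
  calc f K + g K ≤ Real.exp (Real.exp (A * (K : ℝ) ^ 3)) + Real.exp (Real.exp (B * (K : ℝ) ^ 3)) :=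
        add_le_add (ha K hK) (hb K hK)
    _ ≤ Real.exp (Real.exp (A * (K : ℝ) ^ 3) + Real.exp (B * (K : ℝ) ^ 3) + 1) := h6
    _ ≤ _ := Real.exp_le_exp.2 (by linarith)

/-- powers: base double exponential, exponent single exponential -/
theorem DD.pow {f : ℕ → ℝ} {h : ℕ → ℕ} (hf : DD f) (hf0 : ∀ K, 1 ≤ K → 0 ≤ f K)
    (hh : E fun K => (h K : ℝ)) : DD fun K => f K ^ h K := by
  obtain ⟨A, hA, ha⟩ := hf
  obtain ⟨B, hB, hb⟩ := hh
  refine ⟨A + B, by linarith, fun K hK => ?_⟩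
  calc f K ^ h K ≤ Real.exp (Real.exp (A * (K : ℝ) ^ 3)) ^ h K := pow_le_pow_left₀ (hf0 K hK) (ha K hK) _
    _ = Real.exp (h K * Real.exp (A * (K : ℝ) ^ 3)) := by rw [← Real.exp_nat_mul]
    _ ≤ _ := by
        apply Real.exp_le_exp.2
        have h1 : Real.exp ((A + B) * (K : ℝ) ^ 3) =
            Real.exp (B * (K : ℝ) ^ 3) * Real.exp (A * (K : ℝ) ^ 3) := by
          rw [← Real.exp_add]; congr 1; ring
        rw [h1]
        exact mul_le_mul_of_nonneg_right (hb K hK) (Real.exp_pos _).le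

/-- powers with linear base and quadratic exponent -/
theorem E.pow {D C : ℕ → ℕ} (a c : ℕ) (hD : ∀ K, 1 ≤ K → D K ≤ a * K ^ 2) (hC : ∀ K, 1 ≤ K → C K ≤ c * K ^ 2)
    (hD1 : ∀ K, 1 ≤ K → 1 ≤ D K) : E fun K => (D K : ℝ) ^ C K := by
  refine ⟨c * (a + 2), by positivity, fun K hK => ?_⟩
  have hK1 : (1 : ℝ) ≤ K := by exact_mod_cast hK
  have h1 : (D K : ℝ) ≤ Real.exp ((a + 2) * K) := by
    have h2 : (D K : ℝ) ≤ a * (K : ℝ) ^ 2 := by exact_mod_cast hD K hK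
    have h3 : (a : ℝ) ≤ Real.exp (a * K) := by
      have h4 : (a : ℝ) * 1 ≤ a * K := mul_le_mul_of_nonneg_left hK1 (Nat.cast_nonneg a)
      have := Real.add_one_le_exp ((a : ℝ) * K)
      linarith
    have h5 : (K : ℝ) ^ 2 ≤ Real.exp (2 * K) := by
      have h6 : (K : ℝ) ≤ Real.exp K := by
        have := Real.add_one_le_exp (K : ℝ)
        linarith
      calc (K : ℝ) ^ 2 ≤ Real.exp K ^ 2 := pow_le_pow_left₀ (by positivity) h6 2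
        _ = Real.exp (2 * K) := by rw [← Real.exp_nat_mul]; norm_num
    calc (D K : ℝ) ≤ a * (K : ℝ) ^ 2 := h2
      _ ≤ Real.exp (a * K) * Real.exp (2 * K) := mul_le_mul h3 h5 (by positivity) (Real.exp_pos _).le
      _ = Real.exp ((a + 2) * K) := by rw [← Real.exp_add]; congr 1; ring
  have h7 : (1 : ℝ) ≤ Real.exp ((a + 2) * K) := Real.one_le_exp (by positivity)
  calc (D K : ℝ) ^ C K ≤ Real.exp ((a + 2) * K) ^ C K := pow_le_pow_left₀ (by positivity) h1 _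
    _ ≤ Real.exp ((a + 2) * K) ^ (c * K ^ 2) := pow_le_pow_right₀ h7 (hC K hK)
    _ = Real.exp (c * (a + 2) * (K : ℝ) ^ 3) := by
        rw [← Real.exp_nat_mul]; congr 1; push_cast; ring

/-- what `n ≥ exp (exp (A K^3))` gives -/
theorem E.log_ge {g : ℕ → ℝ} (hg : E g) : ∃ A : ℝ, 0 ≤ A ∧ ∀ K : ℕ, 1 ≤ K → ∀ n : ℝ,
    Real.exp (Real.exp (A * (K : ℝ) ^ 3)) ≤ n → g K ≤ Real.log n := by
  obtain ⟨A, hA, ha⟩ := hg
  refine ⟨A, hA, fun K hK n hn => (ha K hK).trans ?_⟩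
  rw [Real.le_log_iff_exp_le (lt_of_lt_of_le (Real.exp_pos _) hn)]
  exact hn

theorem DD.ge {g : ℕ → ℝ} (hg : DD g) : ∃ A : ℝ, 0 ≤ A ∧ ∀ K : ℕ, 1 ≤ K → ∀ n : ℝ,
    Real.exp (Real.exp (A * (K : ℝ) ^ 3)) ≤ n → g K ≤ n := by
  obtain ⟨A, hA, ha⟩ := hg
  exact ⟨A, hA, fun K hK n hn => (ha K hK).trans hn⟩

theorem expexp_mono {A B : ℝ} (h : A ≤ B) {K : ℕ} :
    Real.exp (Real.exp (A * (K : ℝ) ^ 3)) ≤ Real.exp (Real.exp (B * (K : ℝ) ^ 3)) := by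
  apply Real.exp_le_exp.2
  apply Real.exp_le_exp.2
  exact mul_le_mul_of_nonneg_right h (by positivity)

end Pool.Agent.Helper75.ChQ
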